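import Pool.Agent.H65.CZF.TA
import Pool.Agent.H11.CRG.FB
import Pool.Agent.H60.CRZ.H2

/-!
# Board czf_modules, row FBF: the auxiliary function far to the right
-/

set_option autoImplicit false
set_option linter.unusedVariables false

open NumberField NumberField.InfinitePlace Complex Filter Topology MeasureTheory

namespace Pool.Agent.H38.CZF

open Pool.Agent.H65.CZF Pool.Agent.H33.HC Pool.Agent.H33.HH Pool.Agent.H28.RC
  Pool.Agent.H37.CV
open Pool.Agent.H65.CRZ (zc St SZ Zx cA cc)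
open Pool.Agent.H65.CRG (LFg VQ cQ kn pm qm CZ TK el)
open Pool.Agent.H11.CRG (vq_near log_near)

theorem pf_FBF (h1 : Pool.Agent.H65.CRG.T_TR) (h2 : Pool.Agent.H65.CRG.T_QI)
    (h3 : Pool.Agent.H65.CRG.T_V0) (h4 : T_H2U) (h5 : T_LFU) (h6 : T_ENA) (h7 : T_LGF)
    (h8 : T_H2P) (h9 : T_EPB) : T_FBF := by
  intro K _ _ _ P N m θ R κ₁ κ₂ hm hR hθ hκ₁ hκ₂
  obtain ⟨c, hcd, hcV, hcB⟩ := h1 1 N m hm
  obtain ⟨hq0, -⟩ := h2 N m hm
  obtain ⟨C1, hC1, hL⟩ := h4
  obtain ⟨CL, A₁, -, hA₁, hLF⟩ := h5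
  obtain ⟨C7, hC7, hlg⟩ := h7 K κ₁ κ₂ hκ₁ hκ₂
  obtain ⟨C8, hC8, hEM⟩ := h8 K P
  obtain ⟨_, _, _, _, hdf⟩ := h9 K P
  have hC10 : 0 ≤ C1 := by linarith
  obtain ⟨C2, hC2⟩ : ∃ C2 : ℝ, C2 = 2 * C1 + 1 + ∑ i ∈ Finset.range (2 * N),
      (|qm N m (i + 1)| + 1) * ((i + 1).factorial * (2 * C1)) := ⟨_, rfl⟩
  have hC21 : 1 ≤ C2 := by
    have : 0 ≤ ∑ i ∈ Finset.range (2 * N),
      (|qm N m (i + 1)| + 1) * ((i + 1).factorial * (2 * C1)) :=
      Finset.sum_nonneg fun i _ => by positivity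
    rw [hC2]
    linarith
  obtain ⟨C3, hC3⟩ : ∃ C3 : ℝ, C3 = C2 * (1 + C8) ^ 2 + C8 * (2 + C8) := ⟨_, rfl⟩
  have hC31 : 1 ≤ C3 := by
    rw [hC3]
    have ha := mul_nonneg (show (0 : ℝ) ≤ C2 by linarith) (sq_nonneg (1 + C8))
    have hb : (1 : ℝ) * 1 ≤ C8 * (2 + C8) :=
      mul_le_mul hC8 (by linarith) (by norm_num) (by linarith)
    linarith
  -- the abscissa
  obtain ⟨b₁, hb₁⟩ : ∃ b₁ : ℝ, ∀ b : ℝ, b₁ ≤ b → C3 * (2 : ℝ) ^ (-b) ≤ 1 / 2 := by
    have h7 : Tendsto (fun b : ℝ => C3 * (2 : ℝ) ^ (-b)) atTop (𝓝 (C3 * 0)) := by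
      apply Tendsto.const_mul
      have h8 := tendsto_rpow_atTop_of_base_lt_one (1 / 2 : ℝ) (by norm_num) (by norm_num)
      refine h8.congr fun b => ?_
      rw [Real.rpow_neg two_pos.le, one_div, Real.inv_rpow two_pos.le]
    rw [mul_zero] at h7
    exact eventually_atTop.1 (h7.eventually_le_const (by norm_num))
  refine ⟨1 + 4 * C3, max 4 b₁, by linarith, le_max_left _ _, fun b T hb hT => ?_⟩
  have hb4 : 4 ≤ b := (le_max_left _ _).trans hb
  have hbC := hb₁ b ((le_max_right _ _).trans hb)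
  obtain ⟨B, hB, hBc⟩ := hcB (2 * b + 1) (T + 1)
  obtain ⟨δ, hδ⟩ : ∃ δ : ℝ, δ = (2 : ℝ) ^ (-(2 * b + 1)) := ⟨_, rfl⟩
  have hδ0 : 0 < δ := by rw [hδ]; exact Real.rpow_pos_of_pos two_pos _
  have hδ1 : δ ≤ 1 := by
    rw [hδ]
    exact Real.rpow_le_one_of_one_le_of_nonpos one_le_two (by linarith)
  -- the conductor is large
  obtain ⟨Ls, hLs⟩ : ∃ Ls : ℝ, Ls = max 1 (max (Real.log A₁) (B / δ)) := ⟨_, rfl⟩
  have hLs1 : 1 ≤ Ls := by rw [hLs]; exact le_max_left _ _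
  have hLs2 : Real.log A₁ ≤ Ls := by
    rw [hLs]; exact (le_max_left _ _).trans (le_max_right _ _)
  have hLs3 : B / δ ≤ Ls := by
    rw [hLs]; exact (le_max_right _ _).trans (le_max_right _ _)
  refine ⟨max 2 (Real.exp (2 * Ls + C7)), le_max_left _ _,
    fun Q hQ χ hχf hχ1 hχ2 s hs1 hs2 hs3 => ?_⟩
  have hQ2 : 2 ≤ Q := (le_max_left _ _).trans hQ
  have hQ0 : 0 < Q := by linarith
  have hlogQ : 2 * Ls + C7 ≤ Real.log Q := by
    rw [Real.le_log_iff_exp_le hQ0]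
    exact (le_max_right _ _).trans hQ
  obtain ⟨A, hA⟩ : ∃ A : ℝ, A = cA K χ.f := ⟨_, rfl⟩
  have hAnn : 0 ≤ A := by
    rw [hA, cA]
    positivity
  have hlogA : Ls ≤ Real.log A := by
    have h10 := hlg Q χ hQ0 hχ1 hχ2
    rw [← hA] at h10
    have := (abs_le.1 h10).1
    linarith
  have hA0 : 0 < A := by
    rcases hAnn.lt_or_eq with h | h
    · exact h
    · rw [← h, Real.log_zero] at hlogA
      linarith
  have hlog1 : 1 ≤ Real.log A := hLs1.trans hlogA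
  have hAe : Real.exp 1 ≤ A := by
    rw [← Real.le_log_iff_exp_le hA0]
    exact hlog1
  have he : (2 : ℝ) ≤ Real.exp 1 := by
    have := Real.add_one_le_exp (1 : ℝ)
    linarith
  have hA2 : 2 ≤ A := he.trans hAe
  have hAA : A₁ ≤ A := by
    rw [← Real.log_le_log_iff (by linarith) hA0]
    exact hLs2.trans hlogA
  have hlogB : B / Real.log A ≤ δ := by
    have h7 : B / δ ≤ Real.log A := hLs3.trans hlogA
    rw [div_le_iff₀ (by linarith)]
    rw [div_le_iff₀ hδ0] at h7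
    linarith
  obtain ⟨hEnt, hLFg⟩ := hLF K χ (h6 K χ (Or.inl hχf)) (by rw [← hA]; exact hAA)
  have hZd : Differentiable ℂ (Zx χ) := hEnt.1
  have hZ1 : ∀ s : ℂ, 3 / 2 ≤ s.re → ‖Zx χ s - 1‖ ≤ C1 * (2 : ℝ) ^ (-s.re) := by
    intro s hs
    rw [hEnt.2 s (by linarith)]
    exact (hL K χ s hs).2
  have hψn : ∀ I, ‖χ.ψ I‖ ≤ 1 := Pool.Agent.H60.CRZ.norm_psi_le χ
  have hEMχ := hEM χ.ψ hψn χ.map_one
  obtain ⟨hdE, hdM, -⟩ := hdf χ.ψ hψn
  have hlogQ1 : 0 < Real.log Q := by linarith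
  have hRQ : 0 < R / Real.log Q := div_pos hR hlogQ1
  have hMq : 1 ≤ Q ^ θ := Real.one_le_rpow (by linarith) hθ.le
  -- differentiability
  have hVd : ∀ z : ℂ, 0 < z.re → DifferentiableAt ℂ (VQ 1 N m A (Zx χ)) z :=
    fun z hz => (hcV A (Zx χ) z (by linarith) hZd hz).2.1
  have hfd : ∀ z : ℂ, 0 < z.re → DifferentiableAt ℂ (fP P θ R Q N m χ) z := by
    intro z hz
    have h11 : DifferentiableAt ℂ
        (fun z : ℂ => mlz P (Q ^ θ) χ.ψ (z + ((R / Real.log Q : ℝ) : ℂ))) z := by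
      have h13 : Differentiable ℂ ((fun w => mlz P (Q ^ θ) χ.ψ w) ∘
          (fun z : ℂ => z + ((R / Real.log Q : ℝ) : ℂ))) :=
        (hdM (Q ^ θ)).comp (differentiable_id.add_const _)
      exact h13 z
    have h7 := (hVd z hz).mul ((hdE z).mul h11)
    rw [hA] at h7
    exact h7
  -- the function is near one
  have hnear : ∀ z : ℂ, 5 / 2 ≤ z.re → z.re ≤ 2 * b + 1 → |z.im| ≤ T + 1 →
      ‖fP P θ R Q N m χ z - 1‖ ≤ C3 * (2 : ℝ) ^ (-z.re) := by
    intro z hz1 hz2 hz3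
    have hp : (0 : ℝ) < (2 : ℝ) ^ (-z.re) := Real.rpow_pos_of_pos two_pos _
    have hp1 : (2 : ℝ) ^ (-z.re) ≤ 1 :=
      Real.rpow_le_one_of_one_le_of_nonpos one_le_two (by linarith)
    have h7 : ‖VQ 1 N m A (Zx χ) z - 1‖ ≤ C2 * (2 : ℝ) ^ (-z.re) := by
      rw [hC2]
      refine vq_near (N := N) (m := m) (δ := δ) hq0 (c := c A) (L := 2 * Real.log A)
        (hcV A (Zx χ) z (by linarith) hZd (by linarith)).2.2 hZd hZ1 hC10 (by linarith) hz1 hδ1 ?_
        (fun i => (hBc A i z hA2 (by linarith) hz2 hz3).trans hlogB)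
      rw [hδ]
      exact Real.rpow_le_rpow_of_exponent_le one_le_two (by linarith)
    have hC8p : C8 * (2 : ℝ) ^ (-z.re) ≤ C8 * 1 := mul_le_mul_of_nonneg_left hp1 (by linarith)
    obtain ⟨E, hE⟩ : ∃ E : ℂ, E = EP P χ.ψ z := ⟨_, rfl⟩
    obtain ⟨M, hM⟩ : ∃ M : ℂ, M = mlz P (Q ^ θ) χ.ψ (z + ((R / Real.log Q : ℝ) : ℂ)) := ⟨_, rfl⟩
    have h8 : ‖E - 1‖ ≤ C8 * (2 : ℝ) ^ (-z.re) := by
      rw [hE]; exact (hEMχ z (by linarith)).1
    have h9 : ‖M - 1‖ ≤ C8 * (2 : ℝ) ^ (-z.re) := by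
      have hre : (z + ((R / Real.log Q : ℝ) : ℂ)).re = z.re + R / Real.log Q := by
        rw [Complex.add_re, Complex.ofReal_re]
      have h10 := (hEMχ (z + ((R / Real.log Q : ℝ) : ℂ)) (by rw [hre]; linarith)).2 (Q ^ θ) hMq
      rw [hre] at h10
      rw [hM]
      refine h10.trans (mul_le_mul_of_nonneg_left ?_ (by linarith))
      exact Real.rpow_le_rpow_of_exponent_le one_le_two (by linarith)
    have h10 : ‖E‖ ≤ 1 + C8 := by
      have h11 : E = 1 + (E - 1) := by ring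
      rw [h11]
      refine (norm_add_le _ _).trans ?_
      rw [norm_one]
      linarith
    have h11 : ‖M‖ ≤ 1 + C8 := by
      have h11 : M = 1 + (M - 1) := by ring
      rw [h11]
      refine (norm_add_le _ _).trans ?_
      rw [norm_one]
      linarith
    have h12 : ‖E * M‖ ≤ (1 + C8) ^ 2 := by
      rw [norm_mul, sq]
      exact mul_le_mul h10 h11 (norm_nonneg _) (by linarith)
    have h13 : ‖E * M - 1‖ ≤ C8 * (2 + C8) * (2 : ℝ) ^ (-z.re) := by
      have h14 : E * M - 1 = (E - 1) * M + (M - 1) := by ring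
      rw [h14]
      refine (norm_add_le _ _).trans ?_
      rw [norm_mul]
      have h15 : ‖E - 1‖ * ‖M‖ ≤ C8 * (2 : ℝ) ^ (-z.re) * (1 + C8) :=
        mul_le_mul h8 h11 (norm_nonneg _) (by positivity)
      linarith
    have h14 : fP P θ R Q N m χ z - 1 =
        (VQ 1 N m A (Zx χ) z - 1) * (E * M) + (E * M - 1) := by
      rw [fP, ← hA, ← hE, ← hM]
      ring
    rw [h14]
    refine (norm_add_le _ _).trans ?_
    rw [norm_mul]
    have h15 : ‖VQ 1 N m A (Zx χ) z - 1‖ * ‖E * M‖ ≤ C2 * (2 : ℝ) ^ (-z.re) * (1 + C8) ^ 2 :=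
      mul_le_mul h7 h12 (norm_nonneg _) (by positivity)
    rw [hC3]
    linarith
  refine ⟨hfd s (by linarith), fun hs4 => ?_, fun hsb => ?_⟩
  · have h7 := hnear s (by linarith) (by linarith) (by linarith)
    have hp1 : (2 : ℝ) ^ (-s.re) ≤ 1 :=
      Real.rpow_le_one_of_one_le_of_nonpos one_le_two (by linarith)
    have h10 : fP P θ R Q N m χ s = 1 + (fP P θ R Q N m χ s - 1) := by ring
    rw [h10]
    refine (norm_add_le _ _).trans ?_
    rw [norm_one]
    have h11 : C3 * (2 : ℝ) ^ (-s.re) ≤ C3 * 1 := mul_le_mul_of_nonneg_left hp1 (by linarith)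
    linarith
  · have hp : (0 : ℝ) < (2 : ℝ) ^ (-b) := Real.rpow_pos_of_pos two_pos _
    have h7 := hnear s (by linarith) (by linarith) (by linarith)
    rw [hsb] at h7
    have h8 : |‖fP P θ R Q N m χ s‖ - 1| ≤ C3 * (2 : ℝ) ^ (-b) := by
      have h9 := abs_norm_sub_norm_le (fP P θ R Q N m χ s) 1
      rw [norm_one] at h9
      exact h9.trans h7
    have h9 : 1 / 2 ≤ ‖fP P θ R Q N m χ s‖ := by
      have := (abs_le.1 h8).1
      linarith
    have h10 : ‖deriv (fP P θ R Q N m χ) s‖ ≤ 2 * C3 * (2 : ℝ) ^ (-b) := by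
      have h11 : deriv (fP P θ R Q N m χ) s = deriv (fun z => fP P θ R Q N m χ z - 1) s :=
        (deriv_sub_const _).symm
      rw [h11]
      have hball : ∀ z ∈ Metric.closedBall s 1, b - 1 ≤ z.re ∧ z.re ≤ b + 1 ∧ |z.im| ≤ T + 1 := by
        intro z hz
        rw [mem_closedBall_iff_norm] at hz
        have h12 : |(z - s).re| ≤ 1 := (Complex.abs_re_le_norm _).trans hz
        have h13 : |(z - s).im| ≤ 1 := (Complex.abs_im_le_norm _).trans hz
        rw [Complex.sub_re, abs_le] at h12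
        refine ⟨by linarith [h12.1], by linarith [h12.2], ?_⟩
        have h14 : z.im = s.im + (z - s).im := by rw [Complex.sub_im]; ring
        rw [h14]
        exact (abs_add_le _ _).trans (by linarith)
      have h12 := Complex.norm_deriv_le_of_forall_mem_sphere_norm_le
        (f := fun z => fP P θ R Q N m χ z - 1) (c := s) (R := 1)
        (C := 2 * C3 * (2 : ℝ) ^ (-b)) one_pos (by
          apply DifferentiableOn.diffContOnCl_ball (U := Metric.closedBall s 1) _ subset_rfl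
          intro z hz
          have h13 := hball z hz
          exact ((hfd z (by linarith)).sub_const 1).differentiableWithinAt) (by
          intro z hz
          have h13 := hball z (Metric.sphere_subset_closedBall hz)
          refine (hnear z (by linarith) (by linarith) h13.2.2).trans ?_
          have h14 : (2 : ℝ) ^ (-z.re) ≤ 2 * (2 : ℝ) ^ (-b) := by
            calc (2 : ℝ) ^ (-z.re) ≤ (2 : ℝ) ^ (1 + -b) :=
                  Real.rpow_le_rpow_of_exponent_le one_le_two (by linarith [h13.1])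
              _ = 2 * (2 : ℝ) ^ (-b) := by rw [Real.rpow_add two_pos, Real.rpow_one]
          calc C3 * (2 : ℝ) ^ (-z.re) ≤ C3 * (2 * (2 : ℝ) ^ (-b)) :=
                mul_le_mul_of_nonneg_left h14 (by linarith)
            _ = _ := by ring)
      rw [div_one] at h12
      exact h12
    refine ⟨fun h0 => ?_, ?_, ?_⟩
    · rw [h0, norm_zero] at h9
      norm_num at h9
    · refine (log_near h9).trans ?_
      have h11 : 0 < C3 * (2 : ℝ) ^ (-b) := by positivity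
      have h12 : (1 + 4 * C3) * (2 : ℝ) ^ (-b) = (2 : ℝ) ^ (-b) + 4 * (C3 * (2 : ℝ) ^ (-b)) := by
        ring
      linarith
    · refine h10.trans ?_
      have h11 : 0 < C3 * (2 : ℝ) ^ (-b) := by positivity
      have h12 : 0 ≤ (1 + 4 * C3) * (2 : ℝ) ^ (-b) := by positivity
      have h13 := mul_le_mul_of_nonneg_left h9 h12
      have h14 : (1 + 4 * C3) * (2 : ℝ) ^ (-b) * (1 / 2) =
          (2 : ℝ) ^ (-b) / 2 + 2 * C3 * (2 : ℝ) ^ (-b) := by ring
      linarith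

end Pool.Agent.H38.CZF
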