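import Pool.Agent.H65.CZF.TA
import Pool.Agent.H60.CRZ.H2

/-!
# Board czf_modules, row H2P: the mollifier and the Euler factors to the right of `1`
-/

set_option autoImplicit false

open NumberField NumberField.InfinitePlace Complex Filter Topology MeasureTheory

namespace Pool.Agent.H38.CZF

open Pool.Agent.H65.CZF Pool.Agent.H33.HC Pool.Agent.H33.HH Pool.Agent.H28.RC
  Pool.Agent.H37.CV

/-- a finite product of factors near one -/
lemma prod_near {ι : Type} (s : Finset ι) (a : ι → ℂ) (δ : ℝ) (h0 : 0 ≤ δ) (h1 : δ ≤ 1)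
    (ha : ∀ i ∈ s, ‖a i‖ ≤ δ) : ‖(∏ i ∈ s, (1 - a i)) - 1‖ ≤ (2 ^ s.card - 1) * δ := by
  classical
  induction s using Finset.induction_on with
  | empty => simp
  | insert i s hi ih =>
    rw [Finset.prod_insert hi, Finset.card_insert_of_notMem hi]
    have h2 := ih fun j hj => ha j (Finset.mem_insert_of_mem hj)
    have h3 := ha i (Finset.mem_insert_self i s)
    have h4 : (1 - a i) * (∏ j ∈ s, (1 - a j)) - 1 =
        (1 - a i) * ((∏ j ∈ s, (1 - a j)) - 1) - a i := by ring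
    rw [h4]
    refine (norm_sub_le _ _).trans ?_
    rw [norm_mul]
    have h5 : ‖1 - a i‖ ≤ 2 := by
      refine (norm_sub_le _ _).trans ?_
      rw [norm_one]
      linarith
    have h6 : ‖1 - a i‖ * ‖(∏ j ∈ s, (1 - a j)) - 1‖ ≤ 2 * ((2 ^ s.card - 1) * δ) :=
      mul_le_mul h5 h2 (norm_nonneg _) (by norm_num)
    rw [pow_succ]
    nlinarith

theorem pf_H2P (h1 : Pool.Agent.H33.HH.T_NRM) (h2 : Pool.Agent.H37.CV.T_CX) : T_H2P := by
  classical
  intro K _ _ _ P
  have hsum := Pool.Agent.H60.CRZ.summ_nm K (σ := 3 / 2) (by norm_num)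
  set W : ℝ := ∑' I : NI K, nm I.1 ^ (-(3 / 2) : ℝ) with hW
  have hnn : ∀ I : NI K, 0 ≤ nm I.1 ^ (-(3 / 2) : ℝ) := fun I =>
    Real.rpow_nonneg (Nat.cast_nonneg _) _
  have hW0 : 0 ≤ W := tsum_nonneg hnn
  refine ⟨2 ^ (SP K P).card + 4 * W, by
    have : (1 : ℝ) ≤ 2 ^ (SP K P).card := one_le_pow₀ one_le_two
    linarith, ?_⟩
  intro ψ hψ hψ1 s hs
  have hp0 : (0 : ℝ) < (2 : ℝ) ^ (-s.re) := Real.rpow_pos_of_pos two_pos _
  constructor
  · have hδ1 : (2 : ℝ) ^ (-s.re) ≤ 1 :=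
      Real.rpow_le_one_of_one_le_of_nonpos one_le_two (by linarith)
    have h3 := prod_near (SP K P) (fun p => ψ p.1 * ((np p : ℝ) : ℂ) ^ (-s)) ((2 : ℝ) ^ (-s.re))
      hp0.le hδ1 (by
        intro p _
        have hp2 := Pool.Agent.H96.CV.two_le_np p
        rw [norm_mul, Pool.Agent.H60.CRZ.norm_cpow_nm (by linarith)]
        calc ‖ψ p.1‖ * np p ^ (-s.re) ≤ 1 * np p ^ (-s.re) :=
              mul_le_mul_of_nonneg_right (hψ _) (Real.rpow_nonneg (by linarith) _)
          _ = np p ^ (-s.re) := one_mul _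
          _ ≤ _ := Real.rpow_le_rpow_of_nonpos two_pos hp2 (by linarith))
    refine h3.trans ?_
    apply mul_le_mul_of_nonneg_right _ hp0.le
    linarith
  · intro y hy
    have hcx := h2 (PrI K) np (AP K P y) y Pool.Agent.H96.CV.two_le_np hy
    have hemp : (∅ : Finset (PrI K)) ∈ DP K P y := by
      unfold DP DS
      rw [Finset.mem_filter, Finset.mem_powerset]
      refine ⟨Finset.empty_subset _, ?_⟩
      unfold nS
      rw [Finset.prod_empty]
      exact hy
    unfold mlz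
    rw [← Finset.add_sum_erase _ _ hemp]
    have h0 : (lm K P y ∅ : ℂ) * ψ (idS ∅) * ((nS np (∅ : Finset (PrI K)) : ℝ) : ℂ) ^ (-s) = 1 := by
      have h1 : idS (∅ : Finset (PrI K)) = ⊤ := by
        unfold idS
        rw [Finset.prod_empty]
        exact Ideal.one_eq_top
      have h2 : nS np (∅ : Finset (PrI K)) = 1 := by
        unfold nS
        rw [Finset.prod_empty]
      have h3 : lm K P y ∅ = 1 := hcx.1
      rw [h3, h1, hψ1, h2, Complex.ofReal_one, Complex.one_cpow, one_mul, one_mul]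
    rw [h0, add_sub_cancel_left]
    have hne : ∀ S : Finset (PrI K), S ≠ ∅ → idS S ≠ ⊤ := by
      intro S hS h
      obtain ⟨P, hP⟩ := Finset.nonempty_iff_ne_empty.2 hS
      have h1 : P.1 ∣ idS S := by
        unfold idS
        exact Finset.dvd_prod_of_mem (fun P : PrI K => P.1) hP
      rw [h] at h1
      have h2 := Ideal.dvd_iff_le.1 h1
      exact P.2.1.ne_top (top_le_iff.1 h2)
    have h6 : ∀ S ∈ (DP K P y).erase ∅,
        ‖(lm K P y S : ℂ) * ψ (idS S) * ((nS np S : ℝ) : ℂ) ^ (-s)‖ ≤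
        4 * (2 : ℝ) ^ (-s.re) * nm (idS S) ^ (-(3 / 2) : ℝ) := by
      intro S hS
      have hS0 : S ≠ ∅ := (Finset.mem_erase.1 hS).1
      have hSA : S ⊆ AP K P y := by
        have := (Finset.mem_erase.1 hS).2
        unfold DP DS at this
        rw [Finset.mem_filter, Finset.mem_powerset] at this
        exact this.1
      have hc : ‖(lm K P y S : ℂ)‖ ≤ 1 := by
        rw [Complex.norm_real, Real.norm_eq_abs]
        exact hcx.2.2 S hSA
      have h1 : 2 ≤ nm (idS S) :=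
        Pool.Agent.H60.CRZ.two_le_nm (Pool.Agent.H3.CV.idS_ne S) (hne S hS0)
      rw [← Pool.Agent.H3.CV.nm_idS, norm_mul, norm_mul,
        Pool.Agent.H60.CRZ.norm_cpow_nm (by linarith)]
      have h2 : ‖(lm K P y S : ℂ)‖ * ‖ψ (idS S)‖ ≤ 1 :=
        mul_le_one₀ hc (norm_nonneg _) (hψ _)
      calc ‖(lm K P y S : ℂ)‖ * ‖ψ (idS S)‖ * nm (idS S) ^ (-s.re) ≤
            1 * nm (idS S) ^ (-s.re) :=
            mul_le_mul_of_nonneg_right h2 (Real.rpow_nonneg (by linarith) _)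
        _ = nm (idS S) ^ (-s.re) := one_mul _
        _ ≤ _ := Pool.Agent.H60.CRZ.rpow_decay h1 hs
    refine (norm_sum_le _ _).trans ((Finset.sum_le_sum h6).trans ?_)
    rw [← Finset.mul_sum]
    have h7 : ∑ S ∈ (DP K P y).erase ∅, nm (idS S) ^ (-(3 / 2) : ℝ) ≤ W := by
      let g : Finset (PrI K) → NI K := fun S => ⟨idS S, Pool.Agent.H3.CV.idS_ne S⟩
      have hg : Function.Injective g := fun S T h =>
        Pool.Agent.H86.CV.gu_idS_inj (congrArg Subtype.val h)
      calc ∑ S ∈ (DP K P y).erase ∅, nm (idS S) ^ (-(3 / 2) : ℝ)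
          = ∑ I ∈ ((DP K P y).erase ∅).image g, nm I.1 ^ (-(3 / 2) : ℝ) := by
            rw [Finset.sum_image (fun a _ b _ h => hg h)]
        _ ≤ W := hsum.sum_le_tsum _ fun I _ => hnn I
    have h9 : (0 : ℝ) ≤ 2 ^ (SP K P).card := by positivity
    nlinarith

end Pool.Agent.H38.CZF
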